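import Pool.Agent.H23.DZ.Targets

/-! Module A1: Cauchy's estimate for the derivatives of a family of functions. -/

set_option autoImplicit false

open Complex

namespace Pool.Agent.H26.DZ

open Pool.Agent.H23.DZ

lemma sphere_im {c z : ℂ} {r : ℝ} (hz : z ∈ Metric.sphere c r) : |z.im - c.im| ≤ r := by
  have h := Complex.abs_im_le_norm (z - c)
  rw [mem_sphere_iff_norm] at hz
  rw [hz] at h
  simpa using h

lemma sphere_re {c z : ℂ} {r : ℝ} (hz : z ∈ Metric.sphere c r) : |z.re - c.re| ≤ r := by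
  have h := Complex.abs_re_le_norm (z - c)
  rw [mem_sphere_iff_norm] at hz
  rw [hz] at h
  simpa using h

lemma diffContOnCl_of {g : ℂ → ℂ} (hg : ∀ s : ℂ, s.re < 3 / 4 → DifferentiableAt ℂ g s)
    {s : ℂ} {r : ℝ} (hs : s.re + r < 3 / 4) :
    DiffContOnCl ℂ g (Metric.ball s r) := by
  refine DifferentiableOn.diffContOnCl_ball (U := Metric.closedBall s r) ?_ subset_rfl
  intro z hz
  refine (hg z ?_).differentiableWithinAt
  rw [mem_closedBall_iff_norm] at hz
  have h := Complex.re_le_norm (z - s)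
  simp only [sub_re] at h
  linarith

theorem derivStmt : DerivStmt := by
  intro ι f Q X m hF k
  have hX1 : ∀ i t, 1 ≤ X i t := fun i t => (hF.one_le_Q i t).trans (hF.Q_le_X i t)
  have hpow : ∀ {a : ℝ}, 0 ≤ a → a ≤ 1 → (1 + a) ^ m ≤ (2:ℝ) ^ m := by
    intro a ha h1
    gcongr
    linarith
  constructor
  · intro b hb hL A ε hε
    set ρ : ℝ := min ε 1 / 4 with hρ
    have hρ0 : 0 < ρ := by positivity
    have hρε : ρ ≤ ε / 4 := by
      rw [hρ]; have := min_le_left ε 1; linarith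
    have hρ1 : ρ ≤ 1 / 4 := by
      rw [hρ]; have := min_le_right ε 1; linarith
    obtain ⟨C₀, hC₀, h₀⟩ := hL (A + 1) (ε / 4) (by positivity)
    have h2m : (1:ℝ) ≤ 2 ^ m := one_le_pow₀ (by norm_num)
    refine ⟨max 1 (k.factorial * (C₀ * ((2:ℝ) ^ m) ^ (ε / 4 + (|A| + 2))) / ρ ^ k),
      le_max_left _ _, ?_⟩
    intro i s hs1 hs2
    set q := Q i s.im with hq
    set x := X i s.im with hx
    have hq1 : 1 ≤ q := hF.one_le_Q _ _
    have hqx : q ≤ x := hF.Q_le_X _ _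
    have hx1 : 1 ≤ x := hq1.trans hqx
    have hq0 : 0 < q := by linarith
    have hx0 : 0 < x := by linarith
    have hkey : ∀ z ∈ Metric.sphere s ρ, ‖f i z‖ ≤
        C₀ * ((2:ℝ) ^ m) ^ (ε / 4 + (|A| + 2)) * (x ^ ε * q ^ (1 / 2 - s.re)) := by
      intro z hz
      have hr := abs_le.mp (sphere_re hz)
      have hi := sphere_im hz
      have h1 := h₀ i z (by linarith) (by linarith)
      have hXz : X i z.im ≤ 2 ^ m * x := by
        refine (hF.X_le i s.im z.im).trans ?_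
        have := hpow (abs_nonneg (z.im - s.im)) (by linarith)
        gcongr
      have hQz : Q i z.im ≤ 2 ^ m * q := by
        refine (hF.Q_le i s.im z.im).trans ?_
        have := hpow (abs_nonneg (z.im - s.im)) (by linarith)
        gcongr
      have hX0 : 0 < X i z.im := lt_of_lt_of_le one_pos (hX1 _ _)
      have hQ0 : 0 < Q i z.im := lt_of_lt_of_le one_pos (hF.one_le_Q _ _)
      have h2q : 1 ≤ 2 ^ m * q := by nlinarith
      have hXp : X i z.im ^ (ε / 4) ≤ (2 ^ m) ^ (ε / 4) * x ^ (ε / 4) := by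
        rw [← Real.mul_rpow (by positivity) hx0.le]
        exact Real.rpow_le_rpow hX0.le hXz (by positivity)
      have hQp : Q i z.im ^ (1 / 2 - z.re) ≤
          (2 ^ m) ^ (|A| + 2) * (q ^ (1 / 2 - s.re) * x ^ (ε / 4)) := by
        have hA := neg_abs_le A
        have hA' := le_abs_self A
        calc Q i z.im ^ (1 / 2 - z.re) ≤ (2 ^ m * q) ^ (1 / 2 - z.re) :=
              Real.rpow_le_rpow hQ0.le hQz (by linarith)
          _ ≤ (2 ^ m * q) ^ (1 / 2 - s.re + ρ) :=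
              Real.rpow_le_rpow_of_exponent_le h2q (by linarith)
          _ = (2 ^ m) ^ (1 / 2 - s.re + ρ) * (q ^ (1 / 2 - s.re) * q ^ ρ) := by
              rw [Real.mul_rpow (by positivity) hq0.le, Real.rpow_add hq0]
          _ ≤ (2 ^ m) ^ (|A| + 2) * (q ^ (1 / 2 - s.re) * x ^ (ε / 4)) := by
              have e1 : ((2:ℝ) ^ m) ^ (1 / 2 - s.re + ρ) ≤ ((2:ℝ) ^ m) ^ (|A| + 2) :=
                Real.rpow_le_rpow_of_exponent_le h2m (by linarith)
              have e2 : q ^ ρ ≤ x ^ (ε / 4) :=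
                (Real.rpow_le_rpow hq0.le hqx hρ0.le).trans
                  (Real.rpow_le_rpow_of_exponent_le hx1 hρε)
              gcongr
      calc ‖f i z‖ ≤ C₀ * X i z.im ^ (ε / 4) * Q i z.im ^ (1 / 2 - z.re) := h1
        _ ≤ C₀ * ((2 ^ m) ^ (ε / 4) * x ^ (ε / 4)) *
            ((2 ^ m) ^ (|A| + 2) * (q ^ (1 / 2 - s.re) * x ^ (ε / 4))) := by gcongr
        _ = C₀ * ((2 ^ m) ^ (ε / 4) * (2 ^ m) ^ (|A| + 2)) *
            ((x ^ (ε / 4) * x ^ (ε / 4)) * q ^ (1 / 2 - s.re)) := by ring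
        _ = C₀ * (2 ^ m) ^ (ε / 4 + (|A| + 2)) *
            (x ^ (ε / 4 + ε / 4) * q ^ (1 / 2 - s.re)) := by
            rw [← Real.rpow_add (by positivity), ← Real.rpow_add hx0]
        _ ≤ _ := by
            have : x ^ (ε / 4 + ε / 4) ≤ x ^ ε :=
              Real.rpow_le_rpow_of_exponent_le hx1 (by linarith)
            gcongr
    have hmain := Complex.norm_iteratedDeriv_le_of_forall_mem_sphere_norm_le k hρ0
      (diffContOnCl_of (hF.diff i) (s := s) (by linarith)) hkey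
    refine hmain.trans ?_
    have e : (k.factorial : ℝ) * (C₀ * ((2:ℝ) ^ m) ^ (ε / 4 + (|A| + 2)) *
        (x ^ ε * q ^ (1 / 2 - s.re))) / ρ ^ k =
        (k.factorial * (C₀ * ((2:ℝ) ^ m) ^ (ε / 4 + (|A| + 2))) / ρ ^ k) *
          (x ^ ε * q ^ (1 / 2 - s.re)) := by ring
    rw [e, mul_assoc (max _ _)]
    gcongr
    exact le_max_right _ _
  · intro A
    obtain ⟨C₀, hC₀, h₀⟩ := hF.grow (A + 1)
    have hC₀0 : 0 ≤ C₀ := by linarith
    have h2m : (1:ℝ) ≤ 2 ^ m := one_le_pow₀ (by norm_num)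
    refine ⟨max C₀ (k.factorial * (C₀ * ((2:ℝ) ^ m) ^ C₀) / (1 / 16) ^ k),
      hC₀.trans (le_max_left _ _), ?_⟩
    intro i s hs1 hs2
    set x := X i s.im with hx
    have hx1 : 1 ≤ x := hX1 _ _
    have hx0 : 0 < x := by linarith
    have hkey : ∀ z ∈ Metric.sphere s (1 / 16), ‖f i z‖ ≤ C₀ * ((2:ℝ) ^ m) ^ C₀ * x ^ C₀ := by
      intro z hz
      have hr := abs_le.mp (sphere_re hz)
      have hi := sphere_im hz
      have h1 := h₀ i z (by linarith) (by linarith)
      have hXz : X i z.im ≤ 2 ^ m * x := by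
        refine (hF.X_le i s.im z.im).trans ?_
        have := hpow (abs_nonneg (z.im - s.im)) (by linarith)
        gcongr
      have hX0 : 0 < X i z.im := lt_of_lt_of_le one_pos (hX1 _ _)
      have hXp : X i z.im ^ C₀ ≤ (2 ^ m) ^ C₀ * x ^ C₀ := by
        rw [← Real.mul_rpow (by positivity) hx0.le]
        exact Real.rpow_le_rpow hX0.le hXz hC₀0
      calc ‖f i z‖ ≤ C₀ * X i z.im ^ C₀ := h1
        _ ≤ C₀ * ((2 ^ m) ^ C₀ * x ^ C₀) := by gcongr
        _ = _ := by ring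
    have hmain := Complex.norm_iteratedDeriv_le_of_forall_mem_sphere_norm_le k
      (by norm_num : (0:ℝ) < 1 / 16)
      (diffContOnCl_of (hF.diff i) (s := s) (by linarith)) hkey
    refine hmain.trans ?_
    have e : (k.factorial : ℝ) * (C₀ * ((2:ℝ) ^ m) ^ C₀ * x ^ C₀) / (1 / 16) ^ k =
        (k.factorial * (C₀ * ((2:ℝ) ^ m) ^ C₀) / (1 / 16) ^ k) * x ^ C₀ := by ring
    rw [e]
    have e2 : x ^ C₀ ≤ x ^ (max C₀ (k.factorial * (C₀ * ((2:ℝ) ^ m) ^ C₀) / (1 / 16) ^ k)) :=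
      Real.rpow_le_rpow_of_exponent_le hx1 (le_max_left _ _)
    have e3 := le_max_right C₀ (k.factorial * (C₀ * ((2:ℝ) ^ m) ^ C₀) / (1 / 16) ^ k)
    gcongr

end Pool.Agent.H26.DZ
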