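import Pool.Agent.H23.DZ.Targets

/-! Module A3: the Lindelof bound on the critical line and the bound to the left of the line
`Re s = 0` give the sharp bound to the left of the critical line. -/

set_option autoImplicit false

open Complex

namespace Pool.Agent.H26.DZ

open Pool.Agent.H23.DZ

lemma mul_pow_rpow_le {m : ℕ} {w x y c : ℝ} (hw : 1 ≤ w) (hx : 0 < x) (hy : 0 < y)
    (hxy : y ≤ w ^ m * x) (hc : 0 ≤ c) : y ^ c ≤ (w ^ m) ^ c * x ^ c := by
  rw [← Real.mul_rpow (by positivity) hx.le]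
  exact Real.rpow_le_rpow hy.le hxy hc

theorem linLeftStmt (hT : ThreeLinesStmt) : LinLeftStmt := by
  intro ι f Q X m hF hlin A ε hε
  have hQ1 : ∀ i t, 1 ≤ Q i t := hF.one_le_Q
  have hX1 : ∀ i t, 1 ≤ X i t := fun i t => (hF.one_le_Q i t).trans (hF.Q_le_X i t)
  set ε' : ℝ := min ε 1 / 4 with hε'
  have hp : 0 < ε' := by positivity
  have hpε : ε' ≤ ε := by
    rw [hε']; have := min_le_left ε 1; linarith
  have hp1 : ε' ≤ 1 / 4 := by
    rw [hε']; have := min_le_right ε 1; linarith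
  obtain ⟨K, hK, h3⟩ := hT m
  obtain ⟨C₀, hC₀, h₀⟩ := hF.left A ε' hp
  obtain ⟨C₁, hC₁, h₁⟩ := hF.left ε' ε' hp
  obtain ⟨C₂, hC₂, h₂⟩ := hlin ε' hp
  obtain ⟨C₃, hC₃, h₃⟩ := hF.grow ε'
  refine ⟨max C₀ (K * (C₁ * C₂)), hC₀.trans (le_max_left _ _), ?_⟩
  intro i s hs1 hs2
  set q := Q i s.im with hq
  set x := X i s.im with hx
  have hq1 : 1 ≤ q := hQ1 _ _
  have hx1 : 1 ≤ x := hX1 _ _
  have hq0 : 0 < q := by linarith
  have hx0 : 0 < x := by linarith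
  have hxx : x ^ ε' ≤ x ^ ε := Real.rpow_le_rpow_of_exponent_le hx1 hpε
  rcases le_total s.re (-ε') with hl | hl
  · calc ‖f i s‖ ≤ C₀ * x ^ ε' * q ^ (1 / 2 - s.re) := h₀ i s hs1 (by linarith)
      _ ≤ _ := by
        have := le_max_left C₀ (K * (C₁ * C₂))
        gcongr
  · -- the three lines theorem
    set θ : ℝ := (1 / 2 - s.re) / (1 / 2 - -ε') with hθ
    have hden : (0:ℝ) < 1 / 2 - -ε' := by linarith
    have hθ' : (s.re - -ε') / (1 / 2 - -ε') = 1 - θ := by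
      rw [hθ, eq_sub_iff_add_eq, ← add_div, div_eq_one_iff_eq hden.ne']
      ring
    have hθ0 : 0 ≤ θ := by rw [hθ]; exact div_nonneg (by linarith) hden.le
    have hθ1 : θ ≤ 1 := by rw [hθ, div_le_one hden]; linarith
    have hmul : (1 / 2 + ε') * θ = 1 / 2 - s.re := by
      calc (1 / 2 + ε') * θ = θ * (1 / 2 - -ε') := by ring
        _ = _ := div_mul_cancel₀ _ hden.ne'
    have hw : ∀ u : ℝ, 1 ≤ 1 + |u - s.im| := fun u => by linarith [abs_nonneg (u - s.im)]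
    have hwm : ∀ u : ℝ, 1 ≤ (1 + |u - s.im|) ^ m := fun u => one_le_pow₀ (hw u)
    have hmain := h3 (f i) (-ε') (1 / 2) s.im (C₁ * x ^ ε' * q ^ (1 / 2 + ε')) (C₂ * x ^ ε')
      (by linarith) (by linarith) (by positivity) (by positivity)
      (fun z _ hz => hF.diff i z (by linarith)) ?_ ?_ ?_ s.re hl (by linarith)
    · have e0 : ((s.re : ℂ) + s.im * I) = s := Complex.re_add_im s
      rw [e0, hθ'] at hmain
      refine hmain.trans ?_
      rw [← hθ]
      have e1 : (C₁ * x ^ ε' * q ^ (1 / 2 + ε')) ^ θ =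
          C₁ ^ θ * x ^ (ε' * θ) * q ^ (1 / 2 - s.re) := by
        rw [Real.mul_rpow (by positivity) (by positivity), Real.mul_rpow (by positivity)
          (by positivity), ← Real.rpow_mul hx0.le, ← Real.rpow_mul hq0.le, hmul]
      have e2 : (C₂ * x ^ ε') ^ (1 - θ) = C₂ ^ (1 - θ) * x ^ (ε' * (1 - θ)) := by
        rw [Real.mul_rpow (by positivity) (by positivity), ← Real.rpow_mul hx0.le]
      have c1 : C₁ ^ θ ≤ C₁ := by
        calc C₁ ^ θ ≤ C₁ ^ (1:ℝ) := Real.rpow_le_rpow_of_exponent_le hC₁ hθ1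
          _ = C₁ := Real.rpow_one _
      have c2 : C₂ ^ (1 - θ) ≤ C₂ := by
        calc C₂ ^ (1 - θ) ≤ C₂ ^ (1:ℝ) := Real.rpow_le_rpow_of_exponent_le hC₂ (by linarith)
          _ = C₂ := Real.rpow_one _
      have c3 : x ^ (ε' * θ) * x ^ (ε' * (1 - θ)) = x ^ ε' := by
        rw [← Real.rpow_add hx0]; congr 1; ring
      rw [e1, e2]
      calc K * (C₁ ^ θ * x ^ (ε' * θ) * q ^ (1 / 2 - s.re)) *
            (C₂ ^ (1 - θ) * x ^ (ε' * (1 - θ)))
          = K * (C₁ ^ θ * C₂ ^ (1 - θ)) * (x ^ (ε' * θ) * x ^ (ε' * (1 - θ))) *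
            q ^ (1 / 2 - s.re) := by ring
        _ = K * (C₁ ^ θ * C₂ ^ (1 - θ)) * x ^ ε' * q ^ (1 / 2 - s.re) := by rw [c3]
        _ ≤ K * (C₁ * C₂) * x ^ ε * q ^ (1 / 2 - s.re) := by gcongr
        _ ≤ _ := by
          have := le_max_right C₀ (K * (C₁ * C₂))
          gcongr
    · -- polynomial growth
      obtain ⟨n, hn⟩ := exists_nat_ge ((m : ℝ) * C₃)
      refine ⟨C₃ * X i 0 ^ C₃, n, ?_⟩
      intro z hz1 hz2
      have hz0 : 1 ≤ 1 + |z.im| := by linarith [abs_nonneg z.im]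
      have hXz : X i z.im ≤ (1 + |z.im|) ^ m * X i 0 := by
        have := hF.X_le i 0 z.im
        simpa using this
      have hX0 : 0 < X i 0 := lt_of_lt_of_le one_pos (hX1 _ _)
      have hXz0 : 0 < X i z.im := lt_of_lt_of_le one_pos (hX1 _ _)
      have h4 := mul_pow_rpow_le hz0 hX0 hXz0 hXz (by linarith : (0:ℝ) ≤ C₃)
      have h5 : ((1 + |z.im|) ^ m) ^ C₃ ≤ (1 + |z.im|) ^ n := by
        rw [← Real.rpow_natCast (1 + |z.im|) m, ← Real.rpow_mul (by linarith),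
          ← Real.rpow_natCast (1 + |z.im|) n]
        exact Real.rpow_le_rpow_of_exponent_le hz0 hn
      calc ‖f i z‖ ≤ C₃ * X i z.im ^ C₃ := h₃ i z hz1 (by linarith)
        _ ≤ C₃ * (((1 + |z.im|) ^ m) ^ C₃ * X i 0 ^ C₃) := by gcongr
        _ ≤ C₃ * ((1 + |z.im|) ^ n * X i 0 ^ C₃) := by gcongr
        _ = _ := by ring
    · intro u
      have hb := h₁ i ((-ε' : ℝ) + u * I) (by simp) (by simp)
      have him : ((-ε' : ℝ) + u * I : ℂ).im = u := by simp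
      have hre : ((-ε' : ℝ) + u * I : ℂ).re = -ε' := by simp
      rw [him, hre] at hb
      have hXu := mul_pow_rpow_le (hw u) hx0 (lt_of_lt_of_le one_pos (hX1 i u))
        (hF.X_le i s.im u) hp.le
      have hQu := mul_pow_rpow_le (hw u) hq0 (lt_of_lt_of_le one_pos (hQ1 i u))
        (hF.Q_le i s.im u) (by linarith : (0:ℝ) ≤ 1 / 2 - -ε')
      have h6 : ((1 + |u - s.im|) ^ m) ^ ε' * ((1 + |u - s.im|) ^ m) ^ (1 / 2 - -ε') ≤
          (1 + |u - s.im|) ^ m := by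
        rw [← Real.rpow_add (by linarith [hwm u])]
        calc ((1 + |u - s.im|) ^ m) ^ (ε' + (1 / 2 - -ε')) ≤ ((1 + |u - s.im|) ^ m) ^ (1:ℝ) :=
              Real.rpow_le_rpow_of_exponent_le (hwm u) (by linarith)
          _ = _ := Real.rpow_one _
      have hwm' := hwm u
      calc ‖f i ((-ε' : ℝ) + u * I)‖ ≤ C₁ * X i u ^ ε' * Q i u ^ (1 / 2 - -ε') := hb
        _ ≤ C₁ * (((1 + |u - s.im|) ^ m) ^ ε' * x ^ ε') *
            (((1 + |u - s.im|) ^ m) ^ (1 / 2 - -ε') * q ^ (1 / 2 - -ε')) := by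
            have hXu0 : 0 ≤ X i u ^ ε' := Real.rpow_nonneg (by linarith [hX1 i u]) _
            have hQu0 : 0 ≤ Q i u ^ (1 / 2 - -ε') := Real.rpow_nonneg (by linarith [hQ1 i u]) _
            gcongr
        _ = C₁ * x ^ ε' * q ^ (1 / 2 - -ε') *
            (((1 + |u - s.im|) ^ m) ^ ε' * ((1 + |u - s.im|) ^ m) ^ (1 / 2 - -ε')) := by ring
        _ ≤ C₁ * x ^ ε' * q ^ (1 / 2 - -ε') * (1 + |u - s.im|) ^ m := by gcongr
        _ = _ := by rw [sub_neg_eq_add]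
    · intro u
      have hb := h₂ i u
      have e1 : (((1 / 2 : ℝ) : ℂ) + u * I) = 1 / 2 + u * I := by push_cast; rfl
      rw [e1]
      have hXu := mul_pow_rpow_le (hw u) hx0 (lt_of_lt_of_le one_pos (hX1 i u))
        (hF.X_le i s.im u) hp.le
      have h6 : ((1 + |u - s.im|) ^ m) ^ ε' ≤ (1 + |u - s.im|) ^ m := by
        calc ((1 + |u - s.im|) ^ m) ^ ε' ≤ ((1 + |u - s.im|) ^ m) ^ (1:ℝ) :=
              Real.rpow_le_rpow_of_exponent_le (hwm u) (by linarith)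
          _ = _ := Real.rpow_one _
      calc ‖f i (1 / 2 + u * I)‖ ≤ C₂ * X i u ^ ε' := hb
        _ ≤ C₂ * (((1 + |u - s.im|) ^ m) ^ ε' * x ^ ε') := by gcongr
        _ ≤ C₂ * ((1 + |u - s.im|) ^ m * x ^ ε') := by gcongr
        _ = _ := by ring

end Pool.Agent.H26.DZ
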